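import Pool.Agent.Helper4.BT.Defs
import Pool.Agent.Helper12.BT.LAP
import Pool.Agent.Helper62.BT.LAP2

/-!
# BT-BAR: the barrier inequalities

`bar_core` treats all the barriers at once: for `Φ = c0 - β log A + (kap/2) ∑ (log (A_l + D_l²) - log A_l)`
the function `exp Φ` is a strict supersolution.
-/

namespace Pool.Helper4.BT
open MeasureTheory Metric Set Laplacian InnerProductSpace

/-- Bookkeeping: `f` is `C^2` at `x` with Laplacian `L` and gradient `G`. -/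
def bar_H (f : E → ℝ) (x : E) (L : ℝ) (G : E) : Prop :=
  ContDiffAt ℝ 2 f x ∧ (Δ f) x = L ∧ ∀ v, fderiv ℝ f x v = inner ℝ G v

theorem bar_H_const (c : ℝ) (x : E) : bar_H (fun _ => c) x 0 0 := by
  refine ⟨contDiffAt_const, ?_, fun v => ?_⟩
  · rw [laplacian_eq_iteratedFDeriv_stdOrthonormalBasis]
    simp [iteratedFDeriv_const_of_ne]
  · simp

private theorem bar_H_add {f g : E → ℝ} {x : E} {L L' : ℝ} {G G' : E} (hf : bar_H f x L G)
    (hg : bar_H g x L' G') : bar_H (fun y => f y + g y) x (L + L') (G + G') := by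
  refine ⟨hf.1.add hg.1, ?_, fun v => ?_⟩
  · have := hf.1.laplacian_add hg.1
    rw [hf.2.1, hg.2.1] at this
    exact this
  · have h1 := (hf.1.differentiableAt (by norm_num)).hasFDerivAt
    have h2 := (hg.1.differentiableAt (by norm_num)).hasFDerivAt
    rw [(h1.fun_add h2).fderiv, _root_.add_apply, hf.2.2, hg.2.2, inner_add_left]

private theorem bar_H_smul {f : E → ℝ} {x : E} {L : ℝ} {G : E} (c : ℝ) (hf : bar_H f x L G) :
    bar_H (fun y => c * f y) x (c * L) (c • G) := by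
  refine ⟨contDiffAt_const.mul hf.1, ?_, fun v => ?_⟩
  · have := laplacian_smul c hf.1
    rw [hf.2.1] at this
    exact this
  · have h1 := (hf.1.differentiableAt (by norm_num)).hasFDerivAt
    rw [(h1.const_mul c).fderiv, _root_.smul_apply, hf.2.2, inner_smul_left]
    simp

private theorem bar_H_sum {ι : Type} (S : Finset ι) {f : ι → E → ℝ} {x : E} {L : ι → ℝ}
    {G : ι → E} (hf : ∀ i ∈ S, bar_H (f i) x (L i) (G i)) :
    bar_H (fun y => ∑ i ∈ S, f i y) x (∑ i ∈ S, L i) (∑ i ∈ S, G i) := by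
  classical
  induction S using Finset.induction_on with
  | empty => simpa using bar_H_const 0 x
  | insert a s ha ih =>
    simp only [Finset.sum_insert ha]
    exact bar_H_add (hf a (Finset.mem_insert_self a s))
      (ih fun i hi => hf i (Finset.mem_insert_of_mem hi))

private theorem bar_H_log {μ d : ℝ} (hμ : 0 < μ) (hd : 0 ≤ d) (z x : E) :
    bar_H (fun y => Real.log (A μ z y + d)) x
      (12 / (A μ z x + d) - 4 * ‖x - z‖ ^ 2 / (A μ z x + d) ^ 2)
      ((2 / (A μ z x + d)) • (x - z)) := by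
  have hA : 0 < A μ z x := A_pos hμ z x
  have hAd : A μ z x + d ≠ 0 := by positivity
  have hφ : ∀ n : WithTop ℕ∞, ContDiffAt ℝ n (fun a : ℝ => Real.log (a + d)) (A μ z x) := by
    intro n
    exact (contDiffAt_id.add contDiffAt_const).log hAd
  have hd1 : ∀ a : ℝ, a + d ≠ 0 → HasDerivAt (fun a : ℝ => Real.log (a + d)) (a + d)⁻¹ a := by
    intro a ha
    have := ((hasDerivAt_id a).add_const d).log ha
    simpa [one_div] using this
  have hd2 : deriv (deriv fun a : ℝ => Real.log (a + d)) (A μ z x) = -1 / (A μ z x + d) ^ 2 := by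
    have h1 : deriv (fun a : ℝ => Real.log (a + d)) =ᶠ[nhds (A μ z x)] fun a => (a + d)⁻¹ := by
      have : ∀ᶠ a in nhds (A μ z x), a + d ≠ 0 :=
        (continuousAt_id.add continuousAt_const).eventually_ne hAd
      filter_upwards [this] with a ha
      exact (hd1 a ha).deriv
    rw [h1.deriv_eq]
    have h2 : HasDerivAt (fun a : ℝ => (a + d)⁻¹) (-1 / (A μ z x + d) ^ 2) (A μ z x) :=
      ((hasDerivAt_id _).add_const d).inv hAd
    exact h2.deriv
  refine ⟨?_, ?_, fun v => ?_⟩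
  · exact (hφ 2).comp x (contDiff_A μ z).contDiffAt
  · rw [lap_comp_A (fun a => Real.log (a + d)) μ z x (hφ 2), hd2, (hd1 _ hAd).deriv]
    field_simp
    ring
  · rw [fderiv_comp_A (fun a => Real.log (a + d)) μ z x v ((hφ 1).differentiableAt (by norm_num)),
      (hd1 _ hAd).deriv, inner_smul_left]
    simp
    field_simp

private theorem bar_H_exp {f : E → ℝ} {x : E} {L : ℝ} {G : E} (hf : bar_H f x L G) :
    (Δ (fun y => Real.exp (f y))) x = Real.exp (f x) * (L + ‖G‖ ^ 2) := by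
  rw [lap_exp f x hf.1, hf.2.1]
  congr 3
  have : fderiv ℝ f x = innerSL ℝ G := by
    ext v
    rw [hf.2.2, innerSL_apply_apply]
  rw [this, innerSL_apply_norm]

private theorem bar_term {a r D : ℝ} (ha : 0 < a) (hra : r ^ 2 ≤ a) :
    4 * (D ^ 2 / (a * (a + D ^ 2))) ≤
      -(12 / (a + D ^ 2) - 4 * r ^ 2 / (a + D ^ 2) ^ 2 +
        (-1) * (12 / (a + 0) - 4 * r ^ 2 / (a + 0) ^ 2)) ∧
    ((2 / a - 2 / (a + D ^ 2)) * r) ^ 2 ≤ 4 * (D ^ 2 / (a * (a + D ^ 2))) := by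
  have hb : 0 < a + D ^ 2 := by positivity
  constructor
  · rw [← sub_nonneg]
    have : -(12 / (a + D ^ 2) - 4 * r ^ 2 / (a + D ^ 2) ^ 2 +
        (-1) * (12 / (a + 0) - 4 * r ^ 2 / (a + 0) ^ 2)) - 4 * (D ^ 2 / (a * (a + D ^ 2))) =
        4 * D ^ 2 * (2 * a * (a + D ^ 2) - r ^ 2 * (2 * a + D ^ 2)) /
          (a ^ 2 * (a + D ^ 2) ^ 2) := by
      rw [add_zero]
      field_simp
      ring
    rw [this]
    apply div_nonneg _ (by positivity)
    apply mul_nonneg (by positivity)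
    nlinarith [mul_le_mul_of_nonneg_right hra (by positivity : 0 ≤ 2 * a + D ^ 2),
      mul_nonneg ha.le (sq_nonneg D)]
  · have h1 : ((2 / a - 2 / (a + D ^ 2)) * r) ^ 2 =
        4 * (D ^ 2 * D ^ 2 * r ^ 2) / (a ^ 2 * (a + D ^ 2) ^ 2) := by
      field_simp
      ring
    have h2 : 4 * (D ^ 2 / (a * (a + D ^ 2))) =
        4 * (D ^ 2 * (a + D ^ 2) * a) / (a ^ 2 * (a + D ^ 2) ^ 2) := by
      field_simp
    rw [h1, h2]
    apply div_le_div_of_nonneg_right _ (by positivity)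
    have h3 : D ^ 2 * D ^ 2 ≤ D ^ 2 * (a + D ^ 2) :=
      mul_le_mul_of_nonneg_left (by linarith) (sq_nonneg D)
    have h4 : D ^ 2 * D ^ 2 * r ^ 2 ≤ D ^ 2 * (a + D ^ 2) * a :=
      mul_le_mul h3 hra (sq_nonneg r) (by positivity)
    linarith

private theorem bar_core {k : ℕ} (hk : 1 ≤ k) (S : Finset ℕ) (hS : S.card ≤ k) (c0 β : ℝ)
    (hβ : 0 ≤ β) (hβ' : β ≤ 7 / 4) {μ0 : ℝ} (hμ0 : 0 < μ0) (z0 : E) (mu : ℕ → ℝ) (z : ℕ → E)
    (D : ℕ → ℝ) (hmu : ∀ l ∈ S, 0 < mu l) (x : E) :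
    Real.exp (c0 + (-β) * Real.log (A μ0 z0 x + 0) + (kap k / 2) * ∑ l ∈ S,
        (Real.log (A (mu l) (z l) x + D l ^ 2) + (-1) * Real.log (A (mu l) (z l) x + 0))) *
      ((2 / 7) * β / A μ0 z0 x + kap k * ∑ l ∈ S,
        D l ^ 2 / (A (mu l) (z l) x * (A (mu l) (z l) x + D l ^ 2))) ≤
    -(Δ (fun y => Real.exp (c0 + (-β) * Real.log (A μ0 z0 y + 0) + (kap k / 2) * ∑ l ∈ S,
        (Real.log (A (mu l) (z l) y + D l ^ 2) + (-1) * Real.log (A (mu l) (z l) y + 0))))) x := by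
  have hk0 : (0 : ℝ) < k := by exact_mod_cast hk
  have hkap : 0 < kap k := by unfold kap; positivity
  have hH := bar_H_add (bar_H_add (bar_H_const c0 x)
    (bar_H_smul (-β) (bar_H_log hμ0 le_rfl z0 x)))
    (bar_H_smul (kap k / 2) (bar_H_sum S (f := fun l y =>
      Real.log (A (mu l) (z l) y + D l ^ 2) + (-1) * Real.log (A (mu l) (z l) y + 0))
      (fun l hl => bar_H_add (bar_H_log (hmu l hl) (sq_nonneg (D l)) (z l) x)
        (bar_H_smul (-1) (bar_H_log (hmu l hl) le_rfl (z l) x)))))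
  rw [bar_H_exp hH]
  rw [← mul_neg]
  apply mul_le_mul_of_nonneg_left _ (Real.exp_pos _).le
  set Q : ℝ := ∑ l ∈ S, D l ^ 2 / (A (mu l) (z l) x * (A (mu l) (z l) x + D l ^ 2)) with hQ
  have hA0 : 0 < A μ0 z0 x := A_pos hμ0 z0 x
  have hr0 : ‖x - z0‖ ^ 2 ≤ A μ0 z0 x := by
    unfold A
    nlinarith [sq_nonneg μ0]
  have hrl : ∀ l, ‖x - z l‖ ^ 2 ≤ A (mu l) (z l) x := by
    intro l
    unfold A
    nlinarith [sq_nonneg (mu l)]
  have hQ0 : 0 ≤ Q := Finset.sum_nonneg fun l hl => by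
    have := A_pos (hmu l hl) (z l) x
    positivity
  -- the Laplacian
  have hL : 4 * Q ≤ -∑ l ∈ S, (12 / (A (mu l) (z l) x + D l ^ 2) -
      4 * ‖x - z l‖ ^ 2 / (A (mu l) (z l) x + D l ^ 2) ^ 2 +
      (-1) * (12 / (A (mu l) (z l) x + 0) - 4 * ‖x - z l‖ ^ 2 / (A (mu l) (z l) x + 0) ^ 2)) := by
    rw [hQ, Finset.mul_sum, ← Finset.sum_neg_distrib]
    exact Finset.sum_le_sum fun l hl =>
      (bar_term (A_pos (hmu l hl) (z l) x) (hrl l)).1
  -- the gradient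
  have hG : ‖(0 : E) + (-β) • ((2 / (A μ0 z0 x + 0)) • (x - z0)) + (kap k / 2) • ∑ l ∈ S,
      ((2 / (A (mu l) (z l) x + D l ^ 2)) • (x - z l) +
        (-1 : ℝ) • ((2 / (A (mu l) (z l) x + 0)) • (x - z l)))‖ ≤
      2 * β * ‖x - z0‖ / A μ0 z0 x + (kap k / 2) * ∑ l ∈ S,
        (2 / A (mu l) (z l) x - 2 / (A (mu l) (z l) x + D l ^ 2)) * ‖x - z l‖ := by
    refine (norm_add_le _ _).trans (add_le_add ?_ ?_)
    · rw [zero_add, norm_smul, norm_smul, norm_neg, Real.norm_of_nonneg hβ, add_zero,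
        Real.norm_of_nonneg (by positivity : 0 ≤ 2 / A μ0 z0 x)]
      apply le_of_eq
      ring
    · rw [norm_smul, Real.norm_of_nonneg (by positivity : 0 ≤ kap k / 2)]
      apply mul_le_mul_of_nonneg_left _ (by positivity)
      refine (norm_sum_le _ _).trans (Finset.sum_le_sum fun l hl => ?_)
      have ha := A_pos (hmu l hl) (z l) x
      have h1 : (2 / (A (mu l) (z l) x + D l ^ 2)) • (x - z l) +
          (-1 : ℝ) • ((2 / (A (mu l) (z l) x + 0)) • (x - z l)) =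
          (-(2 / A (mu l) (z l) x - 2 / (A (mu l) (z l) x + D l ^ 2))) • (x - z l) := by
        rw [add_zero, smul_smul, ← add_smul]
        congr 1
        ring
      rw [h1, norm_smul, norm_neg, Real.norm_of_nonneg]
      rw [sub_nonneg]
      apply div_le_div_of_nonneg_left (by norm_num) ha
      nlinarith [sq_nonneg (D l)]
  set G : E := (0 : E) + (-β) • ((2 / (A μ0 z0 x + 0)) • (x - z0)) + (kap k / 2) • ∑ l ∈ S,
      ((2 / (A (mu l) (z l) x + D l ^ 2)) • (x - z l) +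
        (-1 : ℝ) • ((2 / (A (mu l) (z l) x + 0)) • (x - z l))) with hGdef
  set X : ℝ := 2 * β * ‖x - z0‖ / A μ0 z0 x with hX
  set Y : ℝ := ∑ l ∈ S, (2 / A (mu l) (z l) x - 2 / (A (mu l) (z l) x + D l ^ 2)) * ‖x - z l‖
    with hY
  have hY2 : Y ^ 2 ≤ 4 * k * Q := by
    have h1 : Y ^ 2 ≤ S.card * ∑ l ∈ S,
        ((2 / A (mu l) (z l) x - 2 / (A (mu l) (z l) x + D l ^ 2)) * ‖x - z l‖) ^ 2 :=
      sq_sum_le_card_mul_sum_sq
    have h2 : ∑ l ∈ S,
        ((2 / A (mu l) (z l) x - 2 / (A (mu l) (z l) x + D l ^ 2)) * ‖x - z l‖) ^ 2 ≤ 4 * Q := by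
      rw [hQ, Finset.mul_sum]
      exact Finset.sum_le_sum fun l hl =>
        (bar_term (A_pos (hmu l hl) (z l) x) (hrl l)).2
    have h3 : (S.card : ℝ) ≤ k := by exact_mod_cast hS
    calc Y ^ 2 ≤ S.card * (4 * Q) := h1.trans (mul_le_mul_of_nonneg_left h2 (by positivity))
      _ ≤ k * (4 * Q) := mul_le_mul_of_nonneg_right h3 (by positivity)
      _ = 4 * k * Q := by ring
  have hG2 : ‖G‖ ^ 2 ≤ (17 / 16) * X ^ 2 + 17 * (kap k / 2) ^ 2 * (4 * k * Q) := by
    have h1 : ‖G‖ ^ 2 ≤ (X + kap k / 2 * Y) ^ 2 := pow_le_pow_left₀ (norm_nonneg _) hG 2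
    have h2 : (X + kap k / 2 * Y) ^ 2 ≤ (17 / 16) * X ^ 2 + 17 * ((kap k / 2) ^ 2 * Y ^ 2) := by
      nlinarith [sq_nonneg (X / 4 - 4 * (kap k / 2 * Y))]
    have h3 : (kap k / 2) ^ 2 * Y ^ 2 ≤ (kap k / 2) ^ 2 * (4 * k * Q) :=
      mul_le_mul_of_nonneg_left hY2 (sq_nonneg _)
    linarith
  have hkk : kap k * k = 1 / 32 := by
    unfold kap
    field_simp
  have h17 : 17 * (kap k / 2) ^ 2 * (4 * k * Q) ≤ kap k * Q := by
    have : 17 * (kap k / 2) ^ 2 * (4 * k * Q) = (17 * (kap k * k)) * (kap k * Q) := by ring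
    rw [this, hkk]
    nlinarith [mul_nonneg hkap.le hQ0]
  have hmain : (2 / 7) * β / A μ0 z0 x ≤
      β * (12 / (A μ0 z0 x + 0) - 4 * ‖x - z0‖ ^ 2 / (A μ0 z0 x + 0) ^ 2) - (17 / 16) * X ^ 2 := by
    rw [hX, add_zero, ← sub_nonneg]
    have h1 : β * (12 / A μ0 z0 x - 4 * ‖x - z0‖ ^ 2 / A μ0 z0 x ^ 2) -
        17 / 16 * (2 * β * ‖x - z0‖ / A μ0 z0 x) ^ 2 - 2 / 7 * β / A μ0 z0 x =
        β * ((12 - 2 / 7) * A μ0 z0 x - (4 + 17 / 4 * β) * ‖x - z0‖ ^ 2) / A μ0 z0 x ^ 2 := by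
      field_simp
      ring
    rw [h1]
    apply div_nonneg _ (by positivity)
    apply mul_nonneg hβ
    have h2 : (4 + 17 / 4 * β) * ‖x - z0‖ ^ 2 ≤ (12 - 2 / 7) * A μ0 z0 x := by
      apply mul_le_mul _ hr0 (sq_nonneg _) (by norm_num)
      linarith
    linarith
  have hfin : kap k / 2 * (4 * Q) ≤ -(kap k / 2 * ∑ l ∈ S, (12 / (A (mu l) (z l) x + D l ^ 2) -
      4 * ‖x - z l‖ ^ 2 / (A (mu l) (z l) x + D l ^ 2) ^ 2 +
      (-1) * (12 / (A (mu l) (z l) x + 0) -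
        4 * ‖x - z l‖ ^ 2 / (A (mu l) (z l) x + 0) ^ 2))) := by
    rw [← mul_neg]
    exact mul_le_mul_of_nonneg_left hL (by positivity)
  nlinarith [hmain, hfin, hG2, h17]

private theorem bar_contDiff (S : Finset ℕ) (mu : ℕ → ℝ) (z : ℕ → E) (D : ℕ → ℝ)
    (hmu : ∀ l ∈ S, 0 < mu l) (κ : ℝ) :
    ContDiff ℝ 2 (fun x => κ * ∑ l ∈ S,
      (Real.log (A (mu l) (z l) x + D l ^ 2) - Real.log (A (mu l) (z l) x))) := by
  refine contDiff_const.mul (ContDiff.sum fun l hl => ?_)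
  have hA : ∀ x, 0 < A (mu l) (z l) x := fun x => A_pos (hmu l hl) (z l) x
  refine ContDiff.sub ?_ ?_
  · refine ContDiff.log ((contDiff_A (mu l) (z l)).add contDiff_const) fun x => ?_
    have := hA x
    positivity
  · exact ContDiff.log (contDiff_A (mu l) (z l)) fun x => (hA x).ne'

theorem contDiff_Fj (k : ℕ) (mu : ℕ → ℝ) (z : ℕ → E) (j : ℕ) (hmu : ∀ l < k, 0 < mu l)
    (hj : j < k) : ContDiff ℝ 2 (Fj k mu z j) := by
  unfold Fj
  refine ContDiff.exp (ContDiff.add (ContDiff.sub contDiff_const (contDiff_const.mul ?_)) ?_)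
  · exact ContDiff.log (contDiff_A (mu j) (z j)) fun x => (A_pos (hmu j hj) (z j) x).ne'
  · exact bar_contDiff _ mu z (fun l => Dd mu z l j) (fun l hl =>
      hmu l (Finset.mem_range.1 (Finset.mem_of_mem_erase hl))) _

theorem contDiff_F0 (k : ℕ) (mu : ℕ → ℝ) (z : ℕ → E) (hmu : ∀ l < k, 0 < mu l) :
    ContDiff ℝ 2 (F0 k mu z) := by
  unfold F0
  refine ContDiff.exp ?_
  have := bar_contDiff (Finset.range k) mu z (fun _ => 1) (fun l hl =>
      hmu l (Finset.mem_range.1 hl)) (kap k / 2)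
  simpa using this

theorem lap_Fj (k : ℕ) (mu : ℕ → ℝ) (z : ℕ → E) (j : ℕ) (hmu : ∀ l < k, 0 < mu l) (hj : j < k)
    (x : E) :
    Fj k mu z j x * (1 / (2 * A (mu j) (z j) x) + kap k * ∑ l ∈ (Finset.range k).erase j,
      Dd mu z l j ^ 2 / (A (mu l) (z l) x * (A (mu l) (z l) x + Dd mu z l j ^ 2)))
      ≤ -(Δ (Fj k mu z j)) x := by
  have h1 : Fj k mu z j = fun y => Real.exp ((3 / 2) * Real.log (mu j) +
      (-(7 / 4)) * Real.log (A (mu j) (z j) y + 0) +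
      (kap k / 2) * ∑ l ∈ (Finset.range k).erase j,
        (Real.log (A (mu l) (z l) y + Dd mu z l j ^ 2) +
          (-1) * Real.log (A (mu l) (z l) y + 0))) := by
    funext y
    unfold Fj
    simp only [add_zero]
    congr 1
    ring_nf
  have h2 := bar_core (by omega : 1 ≤ k) ((Finset.range k).erase j)
    ((Finset.card_le_card (Finset.erase_subset j _)).trans (by simp)) ((3 / 2) * Real.log (mu j))
    (7 / 4) (by norm_num) (by norm_num) (hmu j hj) (z j) mu z (fun l => Dd mu z l j)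
    (fun l hl => hmu l (Finset.mem_range.1 (Finset.mem_of_mem_erase hl))) x
  rw [h1]
  refine le_trans (le_of_eq ?_) h2
  congr 2
  have hA := A_pos (hmu j hj) (z j) x
  field_simp
  norm_num

theorem lap_F0 (k : ℕ) (hk : 1 ≤ k) (mu : ℕ → ℝ) (z : ℕ → E) (hmu : ∀ l < k, 0 < mu l) (x : E) :
    F0 k mu z x * (kap k * ∑ l ∈ Finset.range k,
      1 / (A (mu l) (z l) x * (A (mu l) (z l) x + 1)))
      ≤ -(Δ (F0 k mu z)) x := by
  have h1 : F0 k mu z = fun y => Real.exp (0 + (-0) * Real.log (A 1 0 y + 0) +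
      (kap k / 2) * ∑ l ∈ Finset.range k,
        (Real.log (A (mu l) (z l) y + 1 ^ 2) +
          (-1) * Real.log (A (mu l) (z l) y + 0))) := by
    funext y
    unfold F0
    simp only [add_zero, neg_zero, zero_mul, zero_add, one_pow]
    congr 2
    exact Finset.sum_congr rfl fun l _ => by ring
  have h2 := bar_core hk (Finset.range k) (by simp) 0 0 le_rfl (by norm_num) one_pos (0 : E) mu z
    (fun _ => 1) (fun l hl => hmu l (Finset.mem_range.1 hl)) x
  rw [h1]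
  refine le_trans (le_of_eq ?_) h2
  congr 1
  simp

end Pool.Helper4.BT
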