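import Pool.Agent.Helper4.BT.Defs
import Pool.Agent.Helper83.BT.LMAX
import Pool.Agent.Helper82.BT.BAR

/-!
# BT-STEP1: comparison with the barriers

At the maximum of `|u| / Ψ`, `Ψ = C (F0 + ∑ Fj)`, the maximum principle contradicts the
barrier inequalities, unless the maximum is at most one.
-/

namespace Pool.Helper4.BT
open MeasureTheory Metric Set Laplacian InnerProductSpace

private theorem step1_sum_nonneg {S : Finset ℕ} {k : ℕ} {mu : ℕ → ℝ} {z : ℕ → E} {D : ℕ → ℝ}
    (hmu : ∀ l ∈ S, 0 < mu l) (x : E) :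
    0 ≤ (kap k / 2) * ∑ l ∈ S,
      (Real.log (A (mu l) (z l) x + D l ^ 2) - Real.log (A (mu l) (z l) x)) := by
  have hkap : 0 ≤ kap k := by unfold kap; positivity
  refine mul_nonneg (by positivity) (Finset.sum_nonneg fun l hl => ?_)
  rw [sub_nonneg]
  have hA := A_pos (hmu l hl) (z l) x
  exact Real.log_le_log hA (by nlinarith [sq_nonneg (D l)])

private theorem step1_F0 {k : ℕ} {mu : ℕ → ℝ} (z : ℕ → E) (hmu : ∀ l < k, 0 < mu l) (x : E) :
    1 ≤ F0 k mu z x := by
  unfold F0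
  rw [Real.one_le_exp_iff]
  have := step1_sum_nonneg (S := Finset.range k) (k := k) (z := z) (D := fun _ => 1)
    (fun l hl => hmu l (Finset.mem_range.1 hl)) x
  simpa using this

private theorem step1_Fj_pos (k : ℕ) (mu : ℕ → ℝ) (z : ℕ → E) (j : ℕ) (x : E) :
    0 < Fj k mu z j x := by
  unfold Fj
  exact Real.exp_pos _

private theorem step1_Fj {k : ℕ} {mu : ℕ → ℝ} (z : ℕ → E) (hmu : ∀ l < k, 0 < mu l) {j : ℕ}
    (hj : j < k) {K : ℝ} {x : E} (hx : ‖x - z j‖ ≤ K * mu j) :
    1 / (mu j ^ 2 * (1 + K ^ 2) ^ 2) ≤ Fj k mu z j x := by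
  have hm := hmu j hj
  have hA := A_pos hm (z j) x
  have hAle : A (mu j) (z j) x ≤ (1 + K ^ 2) * mu j ^ 2 := by
    unfold A
    have : ‖x - z j‖ ^ 2 ≤ (K * mu j) ^ 2 := pow_le_pow_left₀ (norm_nonneg _) hx 2
    nlinarith
  have hlog : Real.log (A (mu j) (z j) x) ≤ Real.log (1 + K ^ 2) + 2 * Real.log (mu j) := by
    refine (Real.log_le_log hA hAle).trans (le_of_eq ?_)
    rw [Real.log_mul (by positivity) (by positivity), Real.log_pow]
    push_cast
    ring
  have hsum := step1_sum_nonneg (S := (Finset.range k).erase j) (k := k) (z := z)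
    (D := fun l => Dd mu z l j)
    (fun l hl => hmu l (Finset.mem_range.1 (Finset.mem_of_mem_erase hl))) x
  have hK : 0 ≤ Real.log (1 + K ^ 2) := Real.log_nonneg (by nlinarith [sq_nonneg K])
  have h1 : 1 / (mu j ^ 2 * (1 + K ^ 2) ^ 2) =
      Real.exp (-(2 * Real.log (mu j)) - 2 * Real.log (1 + K ^ 2)) := by
    have h2 : Real.exp (2 * Real.log (mu j)) = mu j ^ 2 := by
      rw [show 2 * Real.log (mu j) = Real.log (mu j ^ 2) by rw [Real.log_pow]; push_cast; ring]
      exact Real.exp_log (by positivity)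
    have h3 : Real.exp (2 * Real.log (1 + K ^ 2)) = (1 + K ^ 2) ^ 2 := by
      rw [show 2 * Real.log (1 + K ^ 2) = Real.log ((1 + K ^ 2) ^ 2) by
        rw [Real.log_pow]; push_cast; ring]
      exact Real.exp_log (by positivity)
    rw [Real.exp_sub, Real.exp_neg, h2, h3]
    field_simp
  rw [h1]
  unfold Fj
  apply Real.exp_le_exp.2
  linarith

/-- The neck inequality. -/
private theorem step1_neck {k : ℕ} (hk : 1 ≤ k) {mu : ℕ → ℝ} {z : ℕ → E}
    (hmu : ∀ l < k, 0 < mu l) {x : E} (hA1 : ∀ l < k, A (mu l) (z l) x ≤ 1) {V : ℝ} {l : ℕ}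
    (hl : l < k) (hml : mu l ≤ ‖x - z l‖) (hV : V * ‖x - z l‖ ^ 2 ≤ 1 / (256 * k)) :
    V * F0 k mu z x < -(Δ (F0 k mu z)) x ∧
    ∀ j < k, V * Fj k mu z j x < -(Δ (Fj k mu z j)) x := by
  have hk0 : (0 : ℝ) < k := by exact_mod_cast hk
  have hk1 : (1 : ℝ) ≤ k := by exact_mod_cast hk
  have hkap : 0 < kap k := by unfold kap; positivity
  have hr : 0 < ‖x - z l‖ := lt_of_lt_of_le (hmu l hl) hml
  set r : ℝ := ‖x - z l‖ with hrdef
  have hr2 : 0 < r ^ 2 := by positivity
  have hAl := A_pos (hmu l hl) (z l) x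
  have hAl2 : A (mu l) (z l) x ≤ 2 * r ^ 2 := by
    unfold A
    have : mu l ^ 2 ≤ r ^ 2 := pow_le_pow_left₀ (hmu l hl).le hml 2
    rw [← hrdef]
    linarith
  have hVr : V ≤ 1 / (256 * k * r ^ 2) := by
    rw [le_div_iff₀ (by positivity)]
    rw [le_div_iff₀ (by positivity)] at hV
    nlinarith
  -- everything reduces to a lower bound by `1 / (128 k r²)`
  have hVlt : V < 1 / (128 * k * r ^ 2) := by
    refine lt_of_le_of_lt hVr ?_
    apply one_div_lt_one_div_of_lt (by positivity)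
    nlinarith [mul_pos hk0 hr2]
  have hkr : kap k / (4 * r ^ 2) = 1 / (128 * k * r ^ 2) := by
    unfold kap
    field_simp
    norm_num
  have hhalf : 1 / (4 * r ^ 2) ≤ 1 / (2 * A (mu l) (z l) x) := by
    apply one_div_le_one_div_of_le (by positivity)
    linarith
  constructor
  · refine lt_of_lt_of_le ?_ (lap_F0 k hk mu z hmu x)
    rw [mul_comm]
    have hF : 0 < F0 k mu z x := lt_of_lt_of_le one_pos (step1_F0 z hmu x)
    apply mul_lt_mul_of_pos_left _ hF
    refine lt_of_lt_of_le hVlt ?_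
    rw [← hkr]
    have h1 : 1 / (4 * r ^ 2) ≤ ∑ l ∈ Finset.range k,
        1 / (A (mu l) (z l) x * (A (mu l) (z l) x + 1)) := by
      have h2 : 1 / (A (mu l) (z l) x * (A (mu l) (z l) x + 1)) ≤ ∑ l ∈ Finset.range k,
          1 / (A (mu l) (z l) x * (A (mu l) (z l) x + 1)) := by
        apply Finset.single_le_sum (f := fun l => 1 / (A (mu l) (z l) x * (A (mu l) (z l) x + 1)))
          (fun i hi => ?_) (Finset.mem_range.2 hl)
        have := A_pos (hmu i (Finset.mem_range.1 hi)) (z i) x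
        positivity
      refine le_trans ?_ h2
      refine hhalf.trans ?_
      apply one_div_le_one_div_of_le (by positivity)
      nlinarith [hA1 l hl]
    calc kap k / (4 * r ^ 2) = kap k * (1 / (4 * r ^ 2)) := by ring
      _ ≤ _ := mul_le_mul_of_nonneg_left h1 hkap.le
  · intro j hj
    refine lt_of_lt_of_le ?_ (lap_Fj k mu z j hmu hj x)
    rw [mul_comm]
    apply mul_lt_mul_of_pos_left _ (step1_Fj_pos k mu z j x)
    have hAj := A_pos (hmu j hj) (z j) x
    have hsum0 : 0 ≤ kap k * ∑ l ∈ (Finset.range k).erase j,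
        Dd mu z l j ^ 2 / (A (mu l) (z l) x * (A (mu l) (z l) x + Dd mu z l j ^ 2)) := by
      refine mul_nonneg hkap.le (Finset.sum_nonneg fun i hi => ?_)
      have := A_pos (hmu i (Finset.mem_range.1 (Finset.mem_of_mem_erase hi))) (z i) x
      positivity
    have hAj0 : 0 < 1 / (2 * A (mu j) (z j) x) := by positivity
    have hV16 : V < 1 / (16 * r ^ 2) := by
      refine lt_of_le_of_lt hVr ?_
      apply one_div_lt_one_div_of_lt (by positivity)
      nlinarith [mul_pos hk0 hr2]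
    by_cases hjl : j = l
    · subst hjl
      have : 1 / (16 * r ^ 2) ≤ 1 / (4 * r ^ 2) :=
        one_div_le_one_div_of_le (by positivity) (by linarith)
      linarith
    · set D : ℝ := Dd mu z l j with hD
      have hDz : ‖z l - z j‖ ≤ D := le_max_left _ _
      have hDm : mu j ≤ D := le_max_right _ _
      have hDpos : 0 < D := lt_of_lt_of_le (hmu j hj) hDm
      by_cases hAD : A (mu l) (z l) x ≤ D ^ 2
      · have h1 : 1 / (4 * r ^ 2) ≤ ∑ l ∈ (Finset.range k).erase j,
            Dd mu z l j ^ 2 / (A (mu l) (z l) x * (A (mu l) (z l) x + Dd mu z l j ^ 2)) := by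
          have h2 : D ^ 2 / (A (mu l) (z l) x * (A (mu l) (z l) x + D ^ 2)) ≤
              ∑ l ∈ (Finset.range k).erase j,
            Dd mu z l j ^ 2 / (A (mu l) (z l) x * (A (mu l) (z l) x + Dd mu z l j ^ 2)) := by
            apply Finset.single_le_sum (f := fun l => Dd mu z l j ^ 2 /
              (A (mu l) (z l) x * (A (mu l) (z l) x + Dd mu z l j ^ 2))) (fun i hi => ?_)
              (Finset.mem_erase.2 ⟨fun h => hjl h.symm, Finset.mem_range.2 hl⟩)
            have := A_pos (hmu i (Finset.mem_range.1 (Finset.mem_of_mem_erase hi))) (z i) x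
            positivity
          refine le_trans ?_ h2
          refine hhalf.trans ?_
          rw [div_le_div_iff₀ (by positivity) (by positivity)]
          nlinarith [mul_le_mul_of_nonneg_left hAD hAl.le]
        have h3 : kap k / (4 * r ^ 2) ≤ kap k * ∑ l ∈ (Finset.range k).erase j,
            Dd mu z l j ^ 2 / (A (mu l) (z l) x * (A (mu l) (z l) x + Dd mu z l j ^ 2)) := by
          calc kap k / (4 * r ^ 2) = kap k * (1 / (4 * r ^ 2)) := by ring
            _ ≤ _ := mul_le_mul_of_nonneg_left h1 hkap.le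
        rw [hkr] at h3
        linarith
      · push Not at hAD
        have hD2 : D ^ 2 < 2 * r ^ 2 := lt_of_lt_of_le hAD hAl2
        have hmj : mu j ^ 2 ≤ D ^ 2 := pow_le_pow_left₀ (hmu j hj).le hDm 2
        have hrj : ‖x - z j‖ ≤ r + D := by
          calc ‖x - z j‖ = ‖(x - z l) + (z l - z j)‖ := by congr 1; abel
            _ ≤ ‖x - z l‖ + ‖z l - z j‖ := norm_add_le _ _
            _ ≤ r + D := add_le_add le_rfl hDz
        have hrj2 : ‖x - z j‖ ^ 2 ≤ 2 * r ^ 2 + 2 * D ^ 2 := by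
          have := pow_le_pow_left₀ (norm_nonneg _) hrj 2
          nlinarith [sq_nonneg (r - D)]
        have hAj8 : A (mu j) (z j) x ≤ 8 * r ^ 2 := by
          unfold A
          nlinarith
        have : 1 / (16 * r ^ 2) ≤ 1 / (2 * A (mu j) (z j) x) :=
          one_div_le_one_div_of_le (by positivity) (by linarith)
        linarith

theorem step1 : ∀ (k : ℕ) (_ : 1 ≤ k) (K C1 C2 : ℝ), ∃ C : ℝ, 1 ≤ C ∧
    ∀ (p : E) (R : ℝ) (u : E → ℝ) (lam : ℝ) (mu : ℕ → ℝ) (z : ℕ → E),
      0 < R → R ≤ 1 / 4 → 0 ≤ lam → ContDiff ℝ 2 u → Sol p R lam u →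
      (∀ l < k, 0 < mu l ∧ mu l ≤ 1 / 2 ∧ ‖z l - p‖ ≤ R) →
      Dich k K C1 p R lam u mu z → (∀ x, ‖x - p‖ = R → |u x| ≤ C2) →
      ∀ x ∈ closedBall p R, |u x| ≤ C * (F0 k mu z x + ∑ j ∈ Finset.range k, Fj k mu z j x) := by
  intro k hk K C1 C2
  refine ⟨1 + |C2| + |C1| * (1 + K ^ 2) ^ 2, ?_, ?_⟩
  · have := abs_nonneg C2
    have : 0 ≤ |C1| * (1 + K ^ 2) ^ 2 := by positivity
    linarith
  intro p R u lam mu z hR hR4 hlam hu hsol hmz hD hC2
  set C : ℝ := 1 + |C2| + |C1| * (1 + K ^ 2) ^ 2 with hC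
  have hCpos : 0 < C := by positivity
  have hmu : ∀ l < k, 0 < mu l := fun l hl => (hmz l hl).1
  set Ψ : E → ℝ := fun x => C * (F0 k mu z x + ∑ j ∈ Finset.range k, Fj k mu z j x) with hΨ
  have hsumpos : ∀ x, 0 ≤ ∑ j ∈ Finset.range k, Fj k mu z j x := fun x =>
    Finset.sum_nonneg fun j _ => (step1_Fj_pos k mu z j x).le
  have hΨC : ∀ x, C ≤ Ψ x := by
    intro x
    have h1 := step1_F0 z hmu x
    have h2 := hsumpos x
    calc C = C * 1 := (mul_one C).symm
      _ ≤ Ψ x := mul_le_mul_of_nonneg_left (by linarith) hCpos.le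
  have hΨpos : ∀ x, 0 < Ψ x := fun x => lt_of_lt_of_le hCpos (hΨC x)
  have hF0c := contDiff_F0 k mu z hmu
  have hFjc : ∀ j ∈ Finset.range k, ContDiff ℝ 2 (Fj k mu z j) := fun j hj =>
    contDiff_Fj k mu z j hmu (Finset.mem_range.1 hj)
  have hsumc : ContDiff ℝ 2 (fun x => ∑ j ∈ Finset.range k, Fj k mu z j x) :=
    ContDiff.sum hFjc
  have hΨc : ContDiff ℝ 2 Ψ := contDiff_const.mul (hF0c.add hsumc)
  -- the Laplacian of the barrier
  have hlapsum : ∀ x, ∀ S ⊆ Finset.range k, (Δ (fun x => ∑ j ∈ S, Fj k mu z j x)) x =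
      ∑ j ∈ S, (Δ (Fj k mu z j)) x := by
    intro x S
    classical
    induction S using Finset.induction_on with
    | empty =>
      intro _
      simp only [Finset.sum_empty]
      exact (bar_H_const 0 x).2.1
    | insert a s ha ih =>
      intro hS
      have hs : s ⊆ Finset.range k := (Finset.subset_insert a s).trans hS
      simp only [Finset.sum_insert ha]
      rw [← ih hs]
      exact ((hFjc a (hS (Finset.mem_insert_self a s))).contDiffAt).laplacian_add
        (ContDiff.sum fun j hj => hFjc j (hs hj)).contDiffAt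
  have hlapΨ : ∀ x, (Δ Ψ) x = C * ((Δ (F0 k mu z)) x +
      ∑ j ∈ Finset.range k, (Δ (Fj k mu z j)) x) := by
    intro x
    have h1 := laplacian_smul C (hF0c.add hsumc).contDiffAt (x := x)
    have h2 := hF0c.contDiffAt.laplacian_add hsumc.contDiffAt (x := x)
    rw [hlapsum x _ subset_rfl] at h2
    rw [← h2]
    exact h1
  intro x hx
  by_contra hcon
  push Not at hcon
  -- the maximum of the quotient
  have hcont : ContinuousOn (fun y => |u y| / Ψ y) (closedBall p R) :=
    (hu.continuous.abs.div hΨc.continuous fun y => (hΨpos y).ne').continuousOn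
  obtain ⟨x0, hx0, hmax⟩ := (isCompact_closedBall p R).exists_isMaxOn ⟨x, hx⟩ hcont
  set c : ℝ := |u x0| / Ψ x0 with hc
  have hc1 : 1 < c := by
    have h1 : |u x| / Ψ x ≤ c := hmax hx
    have h2 : 1 < |u x| / Ψ x := by
      rw [one_lt_div (hΨpos x)]
      exact hcon
    linarith
  have hx0c : |u x0| = c * Ψ x0 := by
    rw [hc, div_mul_cancel₀ _ (hΨpos x0).ne']
  have hle : ∀ y ∈ closedBall p R, |u y| ≤ c * Ψ y := by
    intro y hy
    have h1 : |u y| / Ψ y ≤ c := hmax hy
    rwa [div_le_iff₀ (hΨpos y)] at h1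
  have hgt : Ψ x0 < |u x0| := by
    rw [hx0c]
    nlinarith [hΨpos x0]
  have hx0R : ‖x0 - p‖ ≤ R := by rwa [mem_closedBall, dist_eq_norm] at hx0
  have hlt : ‖x0 - p‖ < R := by
    rcases lt_or_eq_of_le hx0R with h | h
    · exact h
    · exfalso
      have h1 := hC2 x0 h
      have h2 : C2 ≤ C := by
        have := le_abs_self C2
        have : 0 ≤ |C1| * (1 + K ^ 2) ^ 2 := by positivity
        rw [hC]
        linarith
      have := hΨC x0
      linarith
  rcases hD x0 hx0 with ⟨j, hj, hxj, huj⟩ | ⟨l, hl, hml, hV⟩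
  · -- core point
    have h1 := step1_Fj z hmu hj hxj
    have hm := hmu j hj
    have h2 : Fj k mu z j x0 ≤ F0 k mu z x0 + ∑ j ∈ Finset.range k, Fj k mu z j x0 := by
      have h3 := Finset.single_le_sum (f := fun j => Fj k mu z j x0)
        (fun i _ => (step1_Fj_pos k mu z i x0).le) (Finset.mem_range.2 hj)
      have h4 := step1_F0 z hmu x0
      linarith
    have h3 : C1 / mu j ^ 2 ≤ C * Fj k mu z j x0 := by
      have h5 : |C1| * (1 + K ^ 2) ^ 2 * (1 / (mu j ^ 2 * (1 + K ^ 2) ^ 2)) ≤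
          C * Fj k mu z j x0 := by
        apply mul_le_mul _ h1 (by positivity) hCpos.le
        rw [hC]
        have := abs_nonneg C2
        linarith
      refine le_trans ?_ h5
      have h6 : |C1| * (1 + K ^ 2) ^ 2 * (1 / (mu j ^ 2 * (1 + K ^ 2) ^ 2)) = |C1| / mu j ^ 2 := by
        field_simp
      rw [h6]
      exact div_le_div_of_nonneg_right (le_abs_self C1) (by positivity)
    have h4 : C * Fj k mu z j x0 ≤ Ψ x0 := mul_le_mul_of_nonneg_left h2 hCpos.le
    linarith
  · -- neck point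
    have hA1 : ∀ i < k, A (mu i) (z i) x0 ≤ 1 := by
      intro i hi
      obtain ⟨h1, h2, h3⟩ := hmz i hi
      have h4 : ‖x0 - z i‖ ≤ 1 / 2 := by
        calc ‖x0 - z i‖ = ‖(x0 - p) - (z i - p)‖ := by congr 1; abel
          _ ≤ ‖x0 - p‖ + ‖z i - p‖ := norm_sub_le _ _
          _ ≤ 1 / 2 := by linarith
      unfold A
      nlinarith [norm_nonneg (x0 - z i)]
    obtain ⟨hn0, hnj⟩ := step1_neck hk hmu hA1 hl hml hV
    set V : ℝ := |u x0| + lam with hVdef
    have hlap : V * Ψ x0 < -(Δ Ψ) x0 := by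
      rw [hlapΨ, ← mul_neg, hΨ]
      have h1 : V * (F0 k mu z x0 + ∑ j ∈ Finset.range k, Fj k mu z j x0) <
          -((Δ (F0 k mu z)) x0 + ∑ j ∈ Finset.range k, (Δ (Fj k mu z j)) x0) := by
        have h2 : ∑ j ∈ Finset.range k, V * Fj k mu z j x0 ≤
            ∑ j ∈ Finset.range k, -(Δ (Fj k mu z j)) x0 :=
          Finset.sum_le_sum fun j hj => (hnj j (Finset.mem_range.1 hj)).le
        rw [← Finset.mul_sum, Finset.sum_neg_distrib] at h2
        linarith
      calc V * (C * (F0 k mu z x0 + ∑ j ∈ Finset.range k, Fj k mu z j x0))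
          = C * (V * (F0 k mu z x0 + ∑ j ∈ Finset.range k, Fj k mu z j x0)) := by ring
        _ < _ := mul_lt_mul_of_pos_left h1 hCpos
    -- a sign
    obtain ⟨s, hs1, hs2⟩ : ∃ s : ℝ, (s = 1 ∨ s = -1) ∧ s * u x0 = |u x0| := by
      rcases abs_choice (u x0) with h | h
      · exact ⟨1, Or.inl rfl, by rw [h, one_mul]⟩
      · exact ⟨-1, Or.inr rfl, by rw [h]; ring⟩
    have hsabs : ∀ y, s * u y ≤ |u y| := by
      intro y
      rcases hs1 with rfl | rfl
      · rw [one_mul]; exact le_abs_self _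
      · rw [neg_one_mul]; exact neg_le_abs _
    have hlm : IsLocalMax (fun y => s * u y + (-c) * Ψ y) x0 := by
      have hnb : ball p R ∈ nhds x0 := isOpen_ball.mem_nhds (by
        rw [mem_ball, dist_eq_norm]; exact hlt)
      filter_upwards [hnb] with y hy
      have h1 := hle y (ball_subset_closedBall hy)
      have h2 := hsabs y
      rw [hs2, hx0c]
      linarith
    have hsu : ContDiffAt ℝ 2 (fun y => s * u y) x0 := (contDiff_const.mul hu).contDiffAt
    have hcΨ : ContDiffAt ℝ 2 (fun y => (-c) * Ψ y) x0 := (contDiff_const.mul hΨc).contDiffAt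
    have hlapneg := lap_nonpos_of_isLocalMax hlm (hsu.add hcΨ)
    have h1 : (Δ (fun y => s * u y + (-c) * Ψ y)) x0 = s * (Δ u) x0 + (-c) * (Δ Ψ) x0 := by
      have h2 := hsu.laplacian_add hcΨ
      have h3 := laplacian_smul s hu.contDiffAt (x := x0)
      have h4 := laplacian_smul (-c) hΨc.contDiffAt (x := x0)
      have h3' : (Δ (fun y => s * u y)) x0 = s * (Δ u) x0 := h3
      have h4' : (Δ (fun y => (-c) * Ψ y)) x0 = (-c) * (Δ Ψ) x0 := h4
      rw [h3', h4'] at h2
      exact h2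
    rw [h1] at hlapneg
    have hsol0 := hsol x0 (by rw [mem_ball, dist_eq_norm]; exact hlt)
    unfold nl at hsol0
    have h5 : s * (Δ u) x0 = -(V * |u x0|) := by
      have : (Δ u) x0 = -(lam * u x0 + |u x0| * u x0) := by linarith
      rw [this, hVdef, ← hs2]
      ring
    rw [h5, hx0c] at hlapneg
    nlinarith [mul_lt_mul_of_pos_left hlap (by linarith : 0 < c)]

end Pool.Helper4.BT
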